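import Pool.Agent.W91.BH.Stm2

set_option autoImplicit false

open MeasureTheory

namespace Pool.Agent.W365.BH

open Pool.Agent.W91.BH

/-- Number of integer points in a cube. -/
theorem count (n : ℕ) (ρ : ℝ) (hρ : 1 ≤ ρ) (c : Fin n → ℝ) (F : Finset (Fin n → ℤ))
    (hF : ∀ z ∈ F, ∀ i, |c i - (z i : ℝ)| ≤ ρ) : (F.card : ℝ) ≤ (3 * ρ) ^ n := by
  have hsub : F ⊆ Fintype.piFinset (fun i => Finset.Icc ⌈c i - ρ⌉ ⌊c i + ρ⌋) := by
    intro z hz
    rw [Fintype.mem_piFinset]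
    intro i
    have h := abs_le.1 (hF z hz i)
    rw [Finset.mem_Icc, Int.ceil_le, Int.le_floor]
    constructor <;> linarith
  have h1 := Finset.card_le_card hsub
  rw [Fintype.card_piFinset] at h1
  have h2 : ((∏ i, (Finset.Icc ⌈c i - ρ⌉ ⌊c i + ρ⌋).card : ℕ) : ℝ) ≤ ∏ _i : Fin n, (3 * ρ) := by
    push_cast
    apply Finset.prod_le_prod
    · intro i _
      positivity
    · intro i _
      rw [Int.card_Icc]
      have h3 : ((⌊c i + ρ⌋ + 1 - ⌈c i - ρ⌉ : ℤ) : ℝ) ≤ 3 * ρ := by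
        push_cast
        have h5 := Int.floor_le (c i + ρ)
        have h6 := Int.le_ceil (c i - ρ)
        linarith
      rcases le_total 0 (⌊c i + ρ⌋ + 1 - ⌈c i - ρ⌉) with h0 | h0
      · have h4 : (((⌊c i + ρ⌋ + 1 - ⌈c i - ρ⌉).toNat : ℤ) : ℝ) ≤ 3 * ρ := by
          rw [Int.toNat_of_nonneg h0]
          exact h3
        exact_mod_cast h4
      · rw [Int.toNat_of_nonpos h0]
        push_cast
        linarith
  have h3 : (F.card : ℝ) ≤ ((∏ i, (Finset.Icc ⌈c i - ρ⌉ ⌊c i + ρ⌋).card : ℕ) : ℝ) := by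
    exact_mod_cast h1
  have h4 : ∏ _i : Fin n, (3 * ρ) = (3 * ρ) ^ n := by
    simp
  rw [← h4]
  exact h3.trans h2

theorem ctr_mem (n : ℕ) (Q : Idx n) : ctr n Q ∈ cube n Q := by
  intro i
  have h2 : (0 : ℝ) < (2 : ℝ) ^ Q.1 := by positivity
  have h : (2 : ℝ) ^ Q.1 * (ctr n Q) i = (Q.2 i : ℝ) + 1 / 2 := by
    have : (ctr n Q) i = ((Q.2 i : ℝ) + 1 / 2) / (2 : ℝ) ^ Q.1 := rfl
    rw [this]
    field_simp
  rw [h, Int.floor_eq_iff]
  constructor <;> linarith

theorem dist_cube (n : ℕ) (P : Idx n) (x y : E n) (hx : x ∈ cube n P) (hy : y ∈ cube n P) :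
    dist x y ≤ (n + 1 : ℝ) * (1 / 2) ^ P.1 := by
  have h2 : (0 : ℝ) < (2 : ℝ) ^ P.1 := by positivity
  have h3 : (2 : ℝ) ^ P.1 * (1 / 2) ^ P.1 = 1 := by
    rw [← mul_pow]
    norm_num
  have hc : ∀ i, dist (x i) (y i) ≤ (1 / 2 : ℝ) ^ P.1 := by
    intro i
    have h := Int.abs_sub_lt_one_of_floor_eq_floor ((hx i).trans (hy i).symm)
    rw [← mul_sub, abs_mul, abs_of_pos h2] at h
    rw [Real.dist_eq]
    by_contra hcon
    push_neg at hcon
    have := mul_lt_mul_of_pos_left hcon h2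
    linarith
  rw [EuclideanSpace.dist_eq]
  rw [Real.sqrt_le_left (by positivity)]
  have h5 : ∑ i, dist (x i) (y i) ^ 2 ≤ ∑ _i : Fin n, ((1 / 2 : ℝ) ^ P.1) ^ 2 := by
    apply Finset.sum_le_sum
    intro i _
    exact pow_le_pow_left₀ dist_nonneg (hc i) 2
  refine h5.trans ?_
  rw [Finset.sum_const, Finset.card_univ, Fintype.card_fin, nsmul_eq_mul, mul_pow]
  apply mul_le_mul_of_nonneg_right _ (by positivity)
  have : (0 : ℝ) ≤ n := Nat.cast_nonneg n
  nlinarith

/-- Overlap of balls about the centres of the cubes of one level. -/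
theorem ovl : S_OVL := by
  classical
  intro n
  refine ⟨(3 : ℝ) ^ n + n + 1, by positivity, ?_⟩
  intro G P k r μ _ hr hPk
  have h2k : (0 : ℝ) < (2 : ℝ) ^ k := by positivity
  have hr0 : 0 < r := lt_of_lt_of_le (by positivity) hr
  have hρ : 1 ≤ (2 : ℝ) ^ k * r := by
    have h1 : (2 : ℝ) ^ k * (1 / 2) ^ k = 1 := by
      rw [← mul_pow]
      norm_num
    calc (1 : ℝ) = (2 : ℝ) ^ k * (1 / 2) ^ k := h1.symm
      _ ≤ (2 : ℝ) ^ k * r := mul_le_mul_of_nonneg_left hr h2k.le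
  set F := G.filter (fun Q => Q.1 = k ∧ cube n Q ⊆ cube n P) with hF
  set R : ℝ := ((3 : ℝ) ^ n + n + 1) * (1 / 2) ^ P.1 + r with hR
  set D := Metric.closedBall (ctr n P) R with hD
  have hsub : ∀ Q ∈ F, Metric.closedBall (ctr n Q) r ⊆ D := by
    intro Q hQ
    rw [hF, Finset.mem_filter] at hQ
    apply Metric.closedBall_subset_closedBall'
    have h := dist_cube n P (ctr n Q) (ctr n P) (hQ.2.2 (ctr_mem n Q)) (ctr_mem n P)
    have h3 : (n + 1 : ℝ) * (1 / 2) ^ P.1 ≤ ((3 : ℝ) ^ n + n + 1) * (1 / 2) ^ P.1 := by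
      apply mul_le_mul_of_nonneg_right _ (by positivity)
      have : (0 : ℝ) < (3 : ℝ) ^ n := by positivity
      linarith
    rw [hR]
    linarith
  have hpt : ∀ y : E n, ∑ Q ∈ F, (Metric.closedBall (ctr n Q) r).indicator (1 : E n → ℝ) y
      ≤ (3 * ((2 : ℝ) ^ k * r)) ^ n * D.indicator (1 : E n → ℝ) y := by
    intro y
    by_cases hy : y ∈ D
    · rw [Set.indicator_of_mem hy, Pi.one_apply, mul_one]
      simp only [Set.indicator_apply, Pi.one_apply, Finset.sum_boole]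
      have hinj : Set.InjOn (fun Q : Idx n => Q.2)
          (F.filter (fun Q => y ∈ Metric.closedBall (ctr n Q) r) : Set (Idx n)) := by
        intro Q hQ Q' hQ' h
        rw [Finset.mem_coe, Finset.mem_filter, hF, Finset.mem_filter] at hQ hQ'
        exact Prod.ext (hQ.1.2.1.trans hQ'.1.2.1.symm) h
      rw [← Finset.card_image_of_injOn hinj]
      apply count n _ hρ (fun i => (2 : ℝ) ^ k * y i - 1 / 2)
      intro z hz i
      rw [Finset.mem_image] at hz
      obtain ⟨Q, hQ, rfl⟩ := hz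
      rw [Finset.mem_filter, hF, Finset.mem_filter] at hQ
      have hk : Q.1 = k := hQ.1.2.1
      have h1 : ‖(y - ctr n Q) i‖ ≤ ‖y - ctr n Q‖ := PiLp.norm_apply_le _ i
      have h2 : ‖y - ctr n Q‖ ≤ r := by
        have h3 := hQ.2
        rw [Metric.mem_closedBall, dist_eq_norm] at h3
        exact h3
      have h4 : (y - ctr n Q) i = y i - ((Q.2 i : ℝ) + 1 / 2) / (2 : ℝ) ^ k := by
        rw [← hk]
        rfl
      rw [h4, Real.norm_eq_abs] at h1
      have h5 : (2 : ℝ) ^ k * y i - 1 / 2 - (Q.2 i : ℝ)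
          = (2 : ℝ) ^ k * (y i - ((Q.2 i : ℝ) + 1 / 2) / (2 : ℝ) ^ k) := by
        field_simp
        ring
      rw [h5, abs_mul, abs_of_pos h2k]
      exact mul_le_mul_of_nonneg_left (h1.trans h2) h2k.le
    · rw [Set.indicator_of_notMem hy, mul_zero]
      apply le_of_eq
      apply Finset.sum_eq_zero
      intro Q hQ
      apply Set.indicator_of_notMem
      exact fun h => hy (hsub Q hQ h)
  have hmeas : ∀ (c : E n) (s : ℝ), MeasurableSet (Metric.closedBall c s) :=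
    fun c s => Metric.isClosed_closedBall.measurableSet
  have hint : ∀ (c : E n) (s : ℝ),
      Integrable ((Metric.closedBall c s).indicator (1 : E n → ℝ)) μ := by
    intro c s
    exact (integrable_const (1 : ℝ)).indicator (hmeas c s)
  have h1 : ∑ Q ∈ F, μ.real (Metric.closedBall (ctr n Q) r)
      = ∫ y, ∑ Q ∈ F, (Metric.closedBall (ctr n Q) r).indicator (1 : E n → ℝ) y ∂μ := by
    rw [integral_finset_sum _ (fun Q _ => hint _ _)]
    apply Finset.sum_congr rfl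
    intro Q _
    rw [integral_indicator_one (hmeas _ _)]
  have h2 : ∫ y, (3 * ((2 : ℝ) ^ k * r)) ^ n * D.indicator (1 : E n → ℝ) y ∂μ
      = (3 * ((2 : ℝ) ^ k * r)) ^ n * μ.real D := by
    rw [integral_const_mul, integral_indicator_one (hmeas _ _)]
  have h3 : ∫ y, ∑ Q ∈ F, (Metric.closedBall (ctr n Q) r).indicator (1 : E n → ℝ) y ∂μ
      ≤ ∫ y, (3 * ((2 : ℝ) ^ k * r)) ^ n * D.indicator (1 : E n → ℝ) y ∂μ := by
    apply integral_mono
    · exact integrable_finset_sum _ (fun Q _ => hint _ _)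
    · exact (hint _ _).const_mul _
    · exact hpt
  rw [h1]
  refine h3.trans ?_
  rw [h2, mul_pow]
  apply mul_le_mul_of_nonneg_right _ measureReal_nonneg
  apply mul_le_mul_of_nonneg_right _ (by positivity)
  have : (0 : ℝ) ≤ n := Nat.cast_nonneg n
  linarith

end Pool.Agent.W365.BH
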